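import Pool.Agent.H10.T2.Targets1

/-!
# T2 module ZF: the central idempotents, second part
-/

open scoped Classical ComplexConjugate

namespace Pool.Agent.H59.T2

open AMc AMe AMt Pool.Agent.H77.EA.All

section

variable {Γ : Type} [Group Γ] [Fintype Γ]

theorem coeff_cn {R : Type} [CommRing R] (u : Γ) (z : MonoidAlgebra R Γ) (x : Γ) :
    (cn u z).coeff x = z.coeff (u⁻¹ * x * u) := by
  unfold cn
  rw [coeff_mul_group, Finset.sum_eq_single (x * u)]
  · rw [coeff_mul_group, Finset.sum_eq_single u]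
    · simp [MonoidAlgebra.coeff_single, mul_assoc]
    · intro b _ hb
      rw [MonoidAlgebra.coeff_single, Finsupp.single_apply, if_neg (Ne.symm hb), zero_mul]
    · intro h; exact absurd (Finset.mem_univ _) h
  · intro b _ hb
    have : (MonoidAlgebra.single u⁻¹ (1 : R)).coeff (b⁻¹ * x) = 0 := by
      rw [MonoidAlgebra.coeff_single, Finsupp.single_apply, if_neg]
      intro h
      apply hb
      have : b = x * u := by
        have h2 : b⁻¹ * x = u⁻¹ := h.symm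
        have h3 : x = b * u⁻¹ := by rw [← h2]; group
        rw [h3]; group
      exact this
    rw [this, mul_zero]
  · intro h; exact absurd (Finset.mem_univ _) h

omit [Fintype Γ] in
theorem cn_mul {R : Type} [CommRing R] (u : Γ) (z w : MonoidAlgebra R Γ) :
    cn u (z * w) = cn u z * cn u w := by
  unfold cn
  have h : (MonoidAlgebra.single u⁻¹ (1 : R)) * MonoidAlgebra.single u 1 = 1 := by
    rw [MonoidAlgebra.single_mul_single, inv_mul_cancel, one_mul]; rfl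
  calc MonoidAlgebra.single u 1 * (z * w) * MonoidAlgebra.single u⁻¹ 1
      = MonoidAlgebra.single u 1 * z * 1 * w * MonoidAlgebra.single u⁻¹ 1 := by
        simp only [mul_assoc, mul_one]
    _ = _ := by rw [← h]; simp only [mul_assoc]

theorem coeff_ei (K : Subgroup Γ) (θ : Γ → ℂ) (g : Γ) :
    (ei K θ).coeff g = θ 1 / (Nat.card K : ℂ) * conj (θ g) := rfl

theorem ev_add (θ : Γ → ℂ) (z w : MonoidAlgebra ℂ Γ) : ev θ (z + w) = ev θ z + ev θ w := by
  unfold ev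
  rw [← Finset.sum_add_distrib]
  refine Finset.sum_congr rfl fun g _ => ?_
  rw [MonoidAlgebra.coeff_add, Finsupp.add_apply]; ring

theorem ev_zero (θ : Γ → ℂ) : ev θ (0 : MonoidAlgebra ℂ Γ) = 0 := by
  unfold ev
  refine Finset.sum_eq_zero fun g _ => ?_
  simp

theorem ev_smul (θ : Γ → ℂ) (c : ℂ) (z : MonoidAlgebra ℂ Γ) : ev θ (c • z) = c * ev θ z := by
  unfold ev
  rw [Finset.mul_sum]
  refine Finset.sum_congr rfl fun g _ => ?_
  rw [MonoidAlgebra.coeff_smul, Finsupp.smul_apply, smul_eq_mul]; ring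

theorem ev_sum {ι : Type*} (θ : Γ → ℂ) (s : Finset ι) (f : ι → MonoidAlgebra ℂ Γ) :
    ev θ (∑ i ∈ s, f i) = ∑ i ∈ s, ev θ (f i) := by
  induction s using Finset.induction_on with
  | empty => rw [Finset.sum_empty, Finset.sum_empty, ev_zero]
  | insert a s ha ih => rw [Finset.sum_insert ha, Finset.sum_insert ha, ev_add, ih]

theorem ev_mul (θ : Γ → ℂ) (z w : MonoidAlgebra ℂ Γ) :
    ev θ (z * w) = ∑ a : Γ, ∑ b : Γ, z.coeff a * w.coeff b * θ (a * b) := by
  unfold ev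
  have h1 : ∀ g : Γ, (z * w).coeff g * θ g =
      ∑ a : Γ, z.coeff a * w.coeff (a⁻¹ * g) * θ g := by
    intro g
    rw [coeff_mul_group, Finset.sum_mul]
  rw [Finset.sum_congr rfl (fun g _ => h1 g), Finset.sum_comm]
  refine Finset.sum_congr rfl fun a _ => ?_
  rw [← Equiv.sum_comp (Equiv.mulLeft a)]
  refine Finset.sum_congr rfl fun b _ => ?_
  simp

theorem ev_mul_comm {U : Subgroup Γ} {χ : Γ → ℂ} (hχ : χ ∈ IrrS U) {z w : MonoidAlgebra ℂ Γ}
    (hz : ∀ x, x ∉ U → z.coeff x = 0) : ev χ (z * w) = ev χ (w * z) := by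
  rw [ev_mul, ev_mul, Finset.sum_comm]
  refine Finset.sum_congr rfl fun b _ => Finset.sum_congr rfl fun a _ => ?_
  by_cases ha : a ∈ U
  · have h := (fS1 Γ U χ hχ).2.1 a ha (b * a)
    have h2 : a * (b * a) * a⁻¹ = a * b := by group
    rw [h2] at h
    rw [h]; ring
  · rw [hz a ha]; ring

theorem ev_cn {U : Subgroup Γ} {χ : Γ → ℂ} (hχ : χ ∈ IrrS U) {u : Γ} (hu : u ∈ U)
    (z : MonoidAlgebra ℂ Γ) : ev χ (cn u z) = ev χ z := by
  unfold ev
  rw [← Equiv.sum_comp (MulAut.conj u).toEquiv]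
  refine Finset.sum_congr rfl fun a _ => ?_
  have h1 : (MulAut.conj u).toEquiv a = u * a * u⁻¹ := by simp [MulAut.conj_apply]
  rw [h1, coeff_cn, (fS1 Γ U χ hχ).2.1 u hu a]
  congr 2; group

theorem cn_of_mem {U N : Subgroup Γ} {R : Type} [CommRing R] {c : MonoidAlgebra R Γ}
    (hc : c ∈ ZA R N U) {u : Γ} (hu : u ∈ U) : cn u c = c := by
  apply MonoidAlgebra.ext; ext g
  rw [coeff_cn]
  have := hc.2 u⁻¹ (U.inv_mem hu) g
  rwa [inv_inv] at this

/-- the sum of the `U`-conjugates -/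
theorem sum_cn_mem {U : Subgroup Γ} {R : Type} [CommRing R] {z : MonoidAlgebra R Γ}
    (hz : ∀ x, x ∉ U → z.coeff x = 0) :
    (∑ u : U, cn (u : Γ) z) ∈ ZA R U U := by
  constructor
  · intro g hg
    rw [MonoidAlgebra.coeff_sum, Finsupp.finsetSum_apply]
    refine Finset.sum_eq_zero fun u _ => ?_
    rw [coeff_cn]
    apply hz
    intro h
    apply hg
    have h2 : g = u * ((u : Γ)⁻¹ * g * u) * (u : Γ)⁻¹ := by group
    rw [h2]
    exact U.mul_mem (U.mul_mem u.2 h) (U.inv_mem u.2)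
  · intro v hv g
    rw [MonoidAlgebra.coeff_sum, Finsupp.finsetSum_apply, Finsupp.finsetSum_apply]
    rw [← Equiv.sum_comp (Equiv.mulLeft (⟨v, hv⟩ : U))]
    refine Finset.sum_congr rfl fun u _ => ?_
    rw [coeff_cn, coeff_cn]
    congr 1
    simp only [Equiv.coe_mulLeft, Subgroup.coe_mul]
    group

theorem ev_central {U : Subgroup Γ} {χ : Γ → ℂ} (hχ : χ ∈ IrrS U) {z c : MonoidAlgebra ℂ Γ}
    (hz : ∀ x, x ∉ U → z.coeff x = 0) (hc : c ∈ ZA ℂ U U) :
    ev χ (c * z) = ev χ c / χ 1 * ev χ z := by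
  obtain ⟨d, hd, hχ1⟩ := (fS1 Γ U χ hχ).2.2.1
  have hχ0 : χ 1 ≠ 0 := by rw [hχ1]; exact Nat.cast_ne_zero.2 hd.ne'
  set S : MonoidAlgebra ℂ Γ := ∑ u : U, cn (u : Γ) z with hS
  have hSm : S ∈ ZA ℂ U U := sum_cn_mem hz
  have h1 : ev χ (c * S) = (Fintype.card U : ℂ) * ev χ (c * z) := by
    rw [hS, Finset.mul_sum, ev_sum]
    have : ∀ u : U, ev χ (c * cn (u : Γ) z) = ev χ (c * z) := by
      intro u
      rw [← ev_cn hχ u.2 (c * z), cn_mul, cn_of_mem hc u.2]
    rw [Finset.sum_congr rfl (fun u _ => this u), Finset.sum_const, Finset.card_univ, nsmul_eq_mul]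
  have h2 : ev χ S = (Fintype.card U : ℂ) * ev χ z := by
    rw [hS, ev_sum, Finset.sum_congr rfl (fun (u : U) _ => ev_cn hχ u.2 z), Finset.sum_const,
      Finset.card_univ, nsmul_eq_mul]
  have h3 : ev χ (c * S) * χ 1 = ev χ c * ev χ S := fS6 Γ U χ hχ c hc S hSm
  have hn : (Fintype.card U : ℂ) ≠ 0 := Nat.cast_ne_zero.2 Fintype.card_pos.ne'
  rw [h1, h2] at h3
  have h4 : (Fintype.card U : ℂ) * (ev χ (c * z) * χ 1) =
      (Fintype.card U : ℂ) * (ev χ c * ev χ z) := by linear_combination h3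
  have h5 := mul_left_cancel₀ hn h4
  field_simp
  linear_combination h5

theorem ev_ei {U : Subgroup Γ} {χ χ' : Γ → ℂ} (hχ : χ ∈ IrrS U) (hχ' : χ' ∈ IrrS U) :
    ev χ (ei U χ') = if χ = χ' then χ 1 else 0 := by
  unfold ev
  have h := fS2 Γ U χ χ' hχ hχ'
  have h1 : ∑ g : Γ, (ei U χ').coeff g * χ g =
      χ' 1 / (Nat.card U : ℂ) * ∑ g, χ g * conj (χ' g) := by
    rw [Finset.mul_sum]
    refine Finset.sum_congr rfl fun g _ => ?_
    rw [coeff_ei]; ring
  rw [h1, h]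
  split_ifs with h2
  · rw [← h2]
    have : (Nat.card U : ℂ) ≠ 0 := Nat.cast_ne_zero.2 Nat.card_pos.ne'
    field_simp
  · rw [mul_zero]

theorem over_iff {K : Subgroup Γ} {χ θ : Γ → ℂ} (hθ : θ ∈ IrrS K) :
    Over χ θ ↔ ev χ (ei K θ) ≠ 0 := by
  have h1 : ev χ (ei K θ) = θ 1 / (Nat.card K : ℂ) * ∑ g, χ g * conj (θ g) := by
    unfold ev
    rw [Finset.mul_sum]
    refine Finset.sum_congr rfl fun g _ => ?_
    rw [coeff_ei]; ring
  obtain ⟨d, hd, hd1⟩ := (fS1 Γ K θ hθ).2.2.1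
  have h2 : θ 1 / (Nat.card K : ℂ) ≠ 0 := by
    rw [hd1]
    exact div_ne_zero (Nat.cast_ne_zero.2 hd.ne') (Nat.cast_ne_zero.2 Nat.card_pos.ne')
  rw [h1]
  unfold Over
  constructor
  · intro h; exact mul_ne_zero h2 h
  · intro h; exact right_ne_zero_of_mul h

end

/-- ZF -/
theorem zf (ZE : T_ZE) : T_ZF := by
  intro Γ _ _ K U hKU χ hχ
  obtain ⟨d, hd, hχ1⟩ := (fS1 Γ U χ hχ).2.2.1
  have hχ0 : χ 1 ≠ 0 := by rw [hχ1]; exact Nat.cast_ne_zero.2 hd.ne'
  have hsec : ∀ z : MonoidAlgebra ℂ Γ, (∀ x, x ∉ U → z.coeff x = 0) → ∀ χ' ∈ IrrS U,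
      ev χ (z * ei U χ') = if χ = χ' then ev χ z else 0 := by
    intro z hz χ' hχ'
    rw [ev_mul_comm hχ hz, ev_central hχ hz ((ZE Γ U).1 χ' hχ').1, ev_ei hχ hχ']
    split_ifs with h
    · field_simp
    · ring
  refine ⟨fun z w hz _ => ev_mul_comm hχ hz, fun z hz => ⟨?_, ?_, ?_⟩, fun θ hθ => ?_⟩
  · rw [hsec z hz χ hχ, if_pos rfl]
  · intro χ' hχ' hne
    rw [hsec z hz χ' hχ', if_neg (Ne.symm hne)]
  · intro c hc
    exact ev_central hχ hz hc
  have hsup : ∀ x, x ∉ U → (ei K θ).coeff x = 0 := by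
    intro x hx
    rw [coeff_ei, (fS1 Γ K θ hθ).1 x (fun h => hx (hKU.le h))]
    simp
  refine ⟨⟨fun h => ?_, fun h => ?_⟩, fun hinv hov => ?_⟩
  · intro h0
    have h1 := hsec (ei K θ) hsup χ hχ
    rw [if_pos rfl, h0, ev_zero] at h1
    exact (over_iff hθ).1 h h1.symm
  · rw [over_iff hθ]
    intro h0
    apply h
    set S : MonoidAlgebra ℂ Γ := ∑ u : U, cn (u : Γ) (ei K θ) with hS
    have hSm : S ∈ ZA ℂ U U := sum_cn_mem hsup
    have hS0 : ev χ S = 0 := by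
      rw [hS, ev_sum]
      refine Finset.sum_eq_zero fun u _ => ?_
      rw [ev_cn hχ u.2, h0]
    have h2 : S * ei U χ = 0 := by
      rw [(ZE Γ U).2.1 χ hχ S hSm, hS0, zero_div, zero_smul]
    have h3 : ei K θ * S =
        ((Finset.univ.filter fun u : U => θ = cj (u : Γ)⁻¹ θ).card : ℂ) • ei K θ := by
      rw [hS, Finset.mul_sum]
      have h4 : ∀ u : U, ei K θ * cn (u : Γ) (ei K θ) =
          if θ = cj (u : Γ)⁻¹ θ then ei K θ else 0 := by
        intro u
        rw [(ZE Γ K).2.2.2.2 (u : Γ) θ]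
        refine (ZE Γ K).2.2.1 θ hθ _ (fS7 Γ K K (u : Γ)⁻¹ (fun g => ⟨fun hg => ?_, fun hg => ?_⟩)
          θ hθ)
        · exact hKU.nor _ (U.inv_mem u.2) g hg
        · have h5 := hKU.nor _ u.2 _ hg
          have h6 : (u : Γ) * ((u : Γ)⁻¹ * g * ((u : Γ)⁻¹)⁻¹) * (u : Γ)⁻¹ = g := by group
          rwa [h6] at h5
      rw [Finset.sum_congr rfl (fun u _ => h4 u), Finset.sum_ite, Finset.sum_const_zero, add_zero,
        Finset.sum_const, ← Nat.cast_smul_eq_nsmul ℂ]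
    have hc : ((Finset.univ.filter fun u : U => θ = cj (u : Γ)⁻¹ θ).card : ℂ) ≠ 0 := by
      apply Nat.cast_ne_zero.2
      apply Finset.card_ne_zero_of_mem (a := (1 : U))
      rw [Finset.mem_filter]
      refine ⟨Finset.mem_univ _, ?_⟩
      funext g; simp [cj]
    have h7 : ei K θ * S * ei U χ = 0 := by rw [mul_assoc, h2, mul_zero]
    rw [h3, smul_mul_assoc] at h7
    exact (smul_eq_zero.1 h7).resolve_left hc
  · have hmem : ei K θ ∈ ZA ℂ U U := by
      refine ⟨hsup, fun u hu g => ?_⟩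
      rw [coeff_ei, coeff_ei]
      have := congrFun (hinv u hu) g
      simp only [cj] at this
      rw [this]
    have h1 := (ZE Γ U).2.1 χ hχ (ei K θ) hmem
    set l : ℂ := ev χ (ei K θ) / χ 1 with hl
    have hl0 : l ≠ 0 := div_ne_zero ((over_iff hθ).1 hov) hχ0
    have h2 : ei K θ * ei K θ = ei K θ := by
      have := (ZE Γ K).2.2.1 θ hθ θ hθ
      rwa [if_pos rfl] at this
    have h3 : ei K θ * (ei K θ * ei U χ) = ei K θ * ei U χ := by rw [← mul_assoc, h2]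
    rw [h1, mul_smul_comm, h1, smul_smul] at h3
    have h4 : (l * l - l) • ei U χ = 0 := by rw [sub_smul, h3, sub_self]
    have h5 := (smul_eq_zero.1 h4).resolve_right ((ZE Γ U).1 χ hχ).2
    have h6 : l = 1 := by
      have : l * (l - 1) = 0 := by linear_combination h5
      have := (mul_eq_zero.1 this).resolve_left hl0
      linear_combination this
    rw [h1, h6, one_smul]

end Pool.Agent.H59.T2
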